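import Mathlib
import Pool.Agent.Cauliflower.Sound

set_option autoImplicit false

/-!
# Preperiodic points of `z ^ 2 + z` never satisfy `a + b + c = 1`

For every embedding of `ℚ̄` into `ℂ`, a preperiodic point of `f(z) = z ^ 2 + z` has real part
`< 1/3` (the filled Julia set of `f` lies in the half plane `Re z < 1/3`; its largest real part is
about `0.3315`).  Hence three preperiodic points cannot add up to `1`.
-/

namespace Pool.Agent.Results.MP_a37635_nt.NoThreeSumToOne

/-- There is a ring homomorphism `ℚ̄ → ℂ`. -/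
theorem exists_embedding : Nonempty (AlgebraicClosure ℚ →+* ℂ) := by
  have h := AlgebraicClosure.isAlgebraic ℚ
  have h2 : Module.IsTorsionFree ℚ (AlgebraicClosure ℚ) := inferInstance
  refine ⟨(@IsAlgClosed.lift ℂ _ _ ℚ _ _ (AlgebraicClosure ℚ) _ _ (_) _ ?_ _ h).toRingHom⟩
  convert h2

/-- If `x ∈ ℚ̄` has a finite orbit under `z ↦ z ^ 2 + z`, so has its image under any ring
homomorphism to `ℂ`. -/
theorem map_finite (φ : AlgebraicClosure ℚ →+* ℂ) {x : AlgebraicClosure ℚ}
    (h : {y | ∃ n : ℕ, y = (fun z : AlgebraicClosure ℚ => z ^ 2 + z)^[n] x}.Finite) :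
    (Set.range fun n : ℕ => (fun z : ℂ => z ^ 2 + z)^[n] (φ x)).Finite := by
  have key : ∀ n : ℕ, (fun z : ℂ => z ^ 2 + z)^[n] (φ x) =
      φ ((fun z : AlgebraicClosure ℚ => z ^ 2 + z)^[n] x) := by
    intro n
    induction n with
    | zero => simp
    | succ n ih =>
      rw [Function.iterate_succ_apply', Function.iterate_succ_apply', ih]
      simp only [map_add, map_pow]
  refine (h.image φ).subset ?_
  rintro _ ⟨n, rfl⟩
  exact ⟨_, ⟨n, rfl⟩, (key n).symm⟩

/-- There are no preperiodic points `a, b, c ∈ ℚ̄` of `f(z) = z ^ 2 + z` with `a + b + c = 1`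
(a point is preperiodic when its forward orbit is a finite set). -/
theorem result :
    ¬ ∃ a b c : AlgebraicClosure ℚ,
      {y | ∃ n : ℕ, y = (fun z : AlgebraicClosure ℚ => z ^ 2 + z)^[n] a}.Finite ∧
      {y | ∃ n : ℕ, y = (fun z : AlgebraicClosure ℚ => z ^ 2 + z)^[n] b}.Finite ∧
      {y | ∃ n : ℕ, y = (fun z : AlgebraicClosure ℚ => z ^ 2 + z)^[n] c}.Finite ∧
      a + b + c = 1 := by
  rintro ⟨a, b, c, ha, hb, hc, habc⟩
  obtain ⟨φ⟩ := exists_embedding
  have h1 := Cauliflower.re_lt_of_finite_orbit (map_finite φ ha)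
  have h2 := Cauliflower.re_lt_of_finite_orbit (map_finite φ hb)
  have h3 := Cauliflower.re_lt_of_finite_orbit (map_finite φ hc)
  have h4 : (φ a + φ b + φ c).re = 1 := by
    rw [← map_add, ← map_add, habc, map_one, Complex.one_re]
  simp only [Complex.add_re] at h4
  linarith

end Pool.Agent.Results.MP_a37635_nt.NoThreeSumToOne
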